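import Mathlib
import Pool.Agent.Y183.LS.N
set_option autoImplicit false

/-!
# The restriction conjecture for densities whose partial Fourier series is a Lambda(q) series

Let `d = m + 2 ≥ 3` and write `ξ = (u, v)`, `u ∈ [-1,1]`, `v ∈ [-1,1]^m`, `m = d - 2`. The theorem
is the extension estimate for the paraboloid in the full conjectured range `q > 2d/(d-1)` for all
densities `f(u,v) = exp(2πis|v|²) g(u,v)`, `s` real, such that for almost every `u` the Fourier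
series of `g(u,·)` on the cube `[-1,1]^m` has its spectrum in a `Λ(q)` set `Λ ⊆ ℤ^m` (in the sense
of Rudin). Nothing is assumed about the dependence on `u`. The bound is linear in the `Λ(q)`
constant of `Λ` and does not depend on `s`.
-/

namespace Pool.Agent.Results.MP_b7167f_an.LambdaSpectrum

open MeasureTheory Set Complex
open scoped ENNReal NNReal

/-- The closed cube `[-1,1]^n`. -/
abbrev cube (n : ℕ) : Set (Fin n → ℝ) := Icc (fun _ : Fin n => (-1 : ℝ)) (fun _ => 1)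

/-- The extension operator of the truncated paraboloid in `ℝ^(n+1)`:
`Ef(x,t) = ∫_{[-1,1]^n} f(ξ) exp(2πi(ξ·x + |ξ|² t)) dξ`. -/
noncomputable def ext {n : ℕ} (f : (Fin n → ℝ) → ℂ) (y : (Fin n → ℝ) × ℝ) : ℂ :=
  ∫ ξ in cube n,
    f ξ * cexp (2 * Real.pi * I * ((∑ j, ξ j * y.1 j + (∑ j, ξ j ^ 2) * y.2 : ℝ) : ℂ))

/-- The exponential `exp(πi k·v)` of period two. -/
noncomputable def wave {m : ℕ} (k : Fin m → ℤ) (v : Fin m → ℝ) : ℂ :=
  cexp (Real.pi * I * ((∑ j, (k j : ℝ) * v j : ℝ) : ℂ))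

/-- `Λ ⊆ ℤ^m` is a `Λ(q)` set with constant `K`:
`‖∑_{k ∈ F} c_k exp(πi k·v)‖_{L^q([-1,1]^m)} ≤ K (∑_{k ∈ F} |c_k|²)^(1/2)` for every finite subset
`F` of `Λ` and all complex numbers `c_k`. -/
def LambdaSet {m : ℕ} (q : ℝ) (K : ℝ≥0) (L : Set (Fin m → ℤ)) : Prop :=
  ∀ F : Finset (Fin m → ℤ), (∀ k ∈ F, k ∈ L) → ∀ c : (Fin m → ℤ) → ℂ,
    ∫⁻ v in cube m, ‖∑ k ∈ F, c k * wave k v‖ₑ ^ q ≤
      (K * (∑ k ∈ F, ‖c k‖ₑ ^ 2) ^ (1 / 2 : ℝ)) ^ q

/-- For every `k` outside `Λ` the Fourier coefficient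
`∫_{[-1,1]^m} g(u,v) exp(-πi k·v) dv` is zero for almost every `u ∈ [-1,1]`. -/
def SpectrumIn {m : ℕ} (L : Set (Fin m → ℤ)) (g : (Fin (m + 1) → ℝ) → ℂ) : Prop :=
  ∀ k, k ∉ L → ∀ᵐ u ∂(volume.restrict (Icc (-1 : ℝ) 1)),
    ∫ v in cube m, g (Fin.cons u v) * wave (-k) v = 0

/-- The density `(u,v) ↦ exp(2πis|v|²) g(u,v)`. -/
noncomputable def chirp {m : ℕ} (s : ℝ) (g : (Fin (m + 1) → ℝ) → ℂ) (ξ : Fin (m + 1) → ℝ) : ℂ :=
  cexp (2 * Real.pi * I * ((s * ∑ j : Fin m, ξ j.succ ^ 2 : ℝ) : ℂ)) * g ξ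

open Pool.Agent.Y183.LS in
lemma wave_ec {m : ℕ} (k : Fin m → ℤ) (v : Fin m → ℝ) : wave k v = ec (dt (izA 1 k) v) := by
  unfold wave ec dt izA
  congr 1
  push_cast
  rw [Finset.mul_sum, Finset.mul_sum]
  apply Finset.sum_congr rfl
  intro i _
  ring

open Pool.Agent.Y183.LS in
lemma wave_neg {m : ℕ} (k : Fin m → ℤ) (v : Fin m → ℝ) : wave (-k) v = ec (-dt (izA 1 k) v) := by
  rw [wave_ec]
  congr 1
  unfold dt izA
  rw [← Finset.sum_neg_distrib]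
  apply Finset.sum_congr rfl
  intro i _
  rw [Pi.neg_apply]
  push_cast
  ring

/-- **The restriction conjecture for densities with spectrum in a Lambda(q) set.**
Let `m ≥ 1`, `d = m + 2`, `q > 2d/(d-1)` and `p ≥ 2` with `(d-1) q < p ((d-1)(q-1) - 2)` (for
instance `p = q`). There is `C` such that the following holds for all `Λ ⊆ ℤ^m`, all real `s` and
all measurable `g` with spectrum in `Λ` and `∫_u (∫_v |g(u,v)|² dv)^(p/2) du ≤ A^p`. Put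
`f(u,v) = exp(2πis|v|²) g(u,v)`.

1. If `Λ` is a `Λ(q)` set with constant `K`, then `‖E f‖_q ≤ C K A`.
2. If `q ≤ 4` and every element of `ℤ^m` is a sum `k + l` with `k, l ∈ Λ` in at most `r` ways,
   then `‖E f‖_q ≤ C r^(1/4) A`.
-/
theorem result (m : ℕ) (hm : 1 ≤ m) (q p : ℝ) (hq : 2 * ((m : ℝ) + 2) / (m + 1) < q)
    (hp2 : 2 ≤ p) (hp : ((m : ℝ) + 1) * q < p * ((m + 1) * (q - 1) - 2)) :
    ∃ C : ℝ≥0, ∀ (L : Set (Fin m → ℤ)) (s : ℝ) (g : (Fin (m + 1) → ℝ) → ℂ) (A : ℝ≥0),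
      Measurable g → SpectrumIn L g →
      (∫⁻ u in Icc (-1 : ℝ) 1, (∫⁻ v in cube m, ‖g (Fin.cons u v)‖ₑ ^ 2) ^ (p / 2)
        ≤ (A : ℝ≥0∞) ^ p) →
      (∀ K : ℝ≥0, LambdaSet q K L →
        ∫⁻ y : (Fin (m + 1) → ℝ) × ℝ, ‖ext (chirp s g) y‖ₑ ^ q ≤ (C * K * A : ℝ≥0∞) ^ q) ∧
      (q ≤ 4 → ∀ r : ℕ, (∀ n : Fin m → ℤ, {w : (Fin m → ℤ) × (Fin m → ℤ) |
          w.1 ∈ L ∧ w.2 ∈ L ∧ w.1 + w.2 = n}.encard ≤ r) →
        ∫⁻ y : (Fin (m + 1) → ℝ) × ℝ, ‖ext (chirp s g) y‖ₑ ^ q ≤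
          (C * (r : ℝ≥0∞) ^ (1 / 4 : ℝ) * A : ℝ≥0∞) ^ q) := by
  obtain ⟨C, hC⟩ := Pool.Agent.Y183.LS.mainE hm q p hq hp2 hp
  have hm0 : (1 : ℝ) ≤ m := by exact_mod_cast hm
  have hq2 : 2 < q := by
    rw [div_lt_iff₀ (by linarith)] at hq
    by_contra hc
    push Not at hc
    nlinarith
  have hq0 : 0 < q := by linarith
  have hp0 : 0 ≤ p := by linarith
  -- the estimate for all sets with the property in the library form
  have main : ∀ (L : Set (Fin m → ℤ)) (K : ℝ≥0), Pool.Agent.Y183.LS.LQ q K L →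
      ∀ (s : ℝ) (g : (Fin (m + 1) → ℝ) → ℂ) (A : ℝ≥0), Measurable g → SpectrumIn L g →
      (∫⁻ u in Icc (-1 : ℝ) 1, (∫⁻ v in cube m, ‖g (Fin.cons u v)‖ₑ ^ 2) ^ (p / 2)
        ≤ (A : ℝ≥0∞) ^ p) →
      ∫⁻ y : (Fin (m + 1) → ℝ) × ℝ, ‖ext (chirp s g) y‖ₑ ^ q ≤ (C * (K * A) : ℝ≥0∞) ^ q := by
    intro L K hL s g A hg hsp hN
    have hsp' : ∀ k, k ∉ L → ∀ᵐ u ∂(volume.restrict (Icc (-1 : ℝ) 1)),
        ∫ v in Pool.Agent.Y183.LS.BA 1 m, g (Fin.cons u v) *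
          Pool.Agent.Y183.LS.ec (-Pool.Agent.Y183.LS.dt (Pool.Agent.Y183.LS.izA 1 k) v) = 0 := by
      intro k hk
      filter_upwards [hsp k hk] with u hu
      rw [← hu]
      simp only [wave_neg]
    have hch : ∀ y : (Fin (m + 1) → ℝ) × ℝ, ext (chirp s g) y =
        Pool.Agent.H728R3.SR.ext (Pool.Agent.Y183.LS.chirped s g) y := by
      intro y
      rfl
    have key : ∀ B : ℝ≥0, A ≤ B → B ≠ 0 →
        ∫⁻ y : (Fin (m + 1) → ℝ) × ℝ, ‖ext (chirp s g) y‖ₑ ^ q ≤ (C * (K * B) : ℝ≥0∞) ^ q := by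
      intro B hAB hB0
      have hAB' : (A : ℝ≥0∞) ≤ B := by exact_mod_cast hAB
      simp only [hch]
      exact hC L K hL s g hg B (by exact_mod_cast hB0) ENNReal.coe_ne_top
        (hN.trans (ENNReal.rpow_le_rpow hAB' hp0)) hsp'
    have hn : ∀ n : ℕ, ∫⁻ y : (Fin (m + 1) → ℝ) × ℝ, ‖ext (chirp s g) y‖ₑ ^ q ≤
        (C * (K * (A + ((n : ℝ≥0∞) + 1)⁻¹)) : ℝ≥0∞) ^ q := by
      intro n
      have h1 := key (A + ((n : ℝ≥0) + 1)⁻¹) le_self_add (by positivity)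
      have h2 : (((A + ((n : ℝ≥0) + 1)⁻¹ : ℝ≥0)) : ℝ≥0∞) = A + ((n : ℝ≥0∞) + 1)⁻¹ := by
        rw [ENNReal.coe_add, ENNReal.coe_inv (by positivity)]
        push_cast
        rfl
      rwa [h2] at h1
    have ht : Filter.Tendsto (fun n : ℕ => ((n : ℝ≥0∞) + 1)⁻¹) Filter.atTop (nhds 0) := by
      have h1 := ENNReal.tendsto_inv_nat_nhds_zero
      have h2 := (Filter.tendsto_add_atTop_iff_nat 1).mpr h1
      refine h2.congr fun n => ?_
      push_cast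
      rfl
    have hlim : Filter.Tendsto (fun n : ℕ => (C * (K * (A + ((n : ℝ≥0∞) + 1)⁻¹)) : ℝ≥0∞) ^ q)
        Filter.atTop (nhds ((C * (K * A) : ℝ≥0∞) ^ q)) := by
      have h1 : Filter.Tendsto (fun n : ℕ => (A : ℝ≥0∞) + ((n : ℝ≥0∞) + 1)⁻¹) Filter.atTop
          (nhds (A + 0)) := tendsto_const_nhds.add ht
      rw [add_zero] at h1
      have h2 := ENNReal.Tendsto.const_mul (a := (K : ℝ≥0∞)) h1 (Or.inr ENNReal.coe_ne_top)
      have h3 := ENNReal.Tendsto.const_mul (a := (C : ℝ≥0∞)) h2 (Or.inr ENNReal.coe_ne_top)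
      exact (ENNReal.continuous_rpow_const (y := q)).continuousAt.tendsto.comp h3
    exact ge_of_tendsto' hlim hn
  refine ⟨C * 2 ^ m, ?_⟩
  intro L s g A hg hsp hN
  have h2m : (1 : ℝ≥0∞) ≤ 2 ^ m := one_le_pow₀ (by norm_num)
  constructor
  · intro K hK
    have hL : Pool.Agent.Y183.LS.LQ q K L := by
      intro F hF c
      have h1 := hK F hF c
      have h2 : ∀ v, ∑ k ∈ F, c k * wave k v =
          Pool.Agent.Y183.LS.tri F (Pool.Agent.Y183.LS.izA 1) c v := by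
        intro v
        unfold Pool.Agent.Y183.LS.tri
        simp only [wave_ec]
      simp only [h2] at h1
      refine h1.trans (le_of_eq ?_)
      rw [ENNReal.mul_rpow_of_nonneg _ _ hq0.le, ← ENNReal.rpow_mul]
      congr 2
      ring
    refine (main L K hL s g A hg hsp hN).trans ?_
    apply ENNReal.rpow_le_rpow _ hq0.le
    push_cast
    calc (C : ℝ≥0∞) * (K * A) = C * 1 * K * A := by ring
      _ ≤ C * 2 ^ m * K * A := by gcongr
  · intro hq4 r hr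
    have hL := Pool.Agent.Y183.LS.LQ_rep q hq2.le hq4 L r hr
    refine (main L _ hL s g A hg hsp hN).trans ?_
    apply ENNReal.rpow_le_rpow _ hq0.le
    push_cast
    rw [ENNReal.coe_rpow_of_nonneg _ (by norm_num : (0 : ℝ) ≤ 1 / 4)]
    push_cast
    apply le_of_eq
    ring

end Pool.Agent.Results.MP_b7167f_an.LambdaSpectrum
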