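import Mathlib
import Pool.Agent.Y250.AM.F3
set_option autoImplicit false

/-!
The restriction conjecture for the paraboloid in `ℝ^d`, `d = n + 1`, in the full range
`q > 2d/(d-1)`, for products over blocks of coordinates. The `n` coordinates are split (by `e`) into
`m₁` single coordinates and `m₂ ≥ 1` pairs, and `f(ξ) = M(a_1(ξ_(e 1)), …) ∏_j e^{i τ_j |ζ_j|²} G_j(ζ_j)`,
where `ζ_j` is the `j`-th pair. The `a_i` are arbitrary bounded functions of one coordinate with values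
in a Hilbert space and `M` is a bounded multilinear form. In polar coordinates about an arbitrary
centre `c_j`, `G_j` is arbitrary (`L^q`) in the angle and of bounded variation in the radius. The
`τ_j` are arbitrary real numbers.
-/

namespace Pool.Agent.Results.MP_b7167f_an.PolarBlocks

open MeasureTheory Set Complex
open scoped ENNReal NNReal

/-- The extension operator of the truncated paraboloid in `ℝ^(n+1)`:
`Ef(x,t) = ∫_{[-1,1]^n} f(ξ) exp(2πi(ξ·x + |ξ|² t)) dξ`. -/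
noncomputable def ext {n : ℕ} (f : (Fin n → ℝ) → ℂ) (y : (Fin n → ℝ) × ℝ) : ℂ :=
  ∫ ξ in Icc (-1 : Fin n → ℝ) 1,
    f ξ * cexp (2 * Real.pi * I * ((∑ j, ξ j * y.1 j + (∑ j, ξ j ^ 2) * y.2 : ℝ) : ℂ))

/-- The point with polar coordinates `(r, θ)` about `c`. -/
noncomputable def pt (c : ℝ × ℝ) (r θ : ℝ) : ℝ × ℝ :=
  (c.1 + r * Real.cos θ, c.2 + r * Real.sin θ)

/-- `G` vanishes off the square `[-1,1]²`, and in polar coordinates about `c`, `|c| ≤ D`, its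
variation in the radius, as a function with values in `L^q` of the circle, is controlled by the
nonincreasing function `κ ≥ 0`:
`‖G(c + s e^{iθ}) - G(c + r e^{iθ})‖_{L^q(dθ)} ≤ κ(r) - κ(s)` for `0 < r ≤ s`. -/
def Controlled (q D : ℝ) (c : ℝ × ℝ) (κ : ℝ → ℝ) (G : ℝ × ℝ → ℂ) : Prop :=
  Measurable G ∧ (∀ x, x ∉ Icc ((-1 : ℝ), (-1 : ℝ)) ((1 : ℝ), (1 : ℝ)) → G x = 0) ∧
    c.1 ^ 2 + c.2 ^ 2 ≤ D ^ 2 ∧ AntitoneOn κ (Ioi 0) ∧ (∀ r, 0 < r → 0 ≤ κ r) ∧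
    ∀ r s, 0 < r → r ≤ s →
      eLpNorm (fun θ => G (pt c s θ) - G (pt c r θ)) (ENNReal.ofReal q)
        (volume.restrict (Ioo (-Real.pi) Real.pi)) ≤ ENNReal.ofReal (κ r - κ s)

theorem result (m₁ m₂ n : ℕ) (hm₂ : 1 ≤ m₂) (hn : n = m₁ + 2 * m₂) (q D : ℝ)
    (hq : 2 * ((n : ℝ) + 1) / n < q) (hD : 0 ≤ D) :
    ∃ C : ℝ≥0, ∀ (e : Fin m₁ ⊕ (Fin m₂ ⊕ Fin m₂) ≃ Fin n) (H : Type) [NormedAddCommGroup H]
      [InnerProductSpace ℂ H] [CompleteSpace H]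
      (M : ContinuousMultilinearMap ℂ (fun _ : Fin m₁ => H) ℂ) (a : Fin m₁ → ℝ → H)
      (G : Fin m₂ → ℝ × ℝ → ℂ) (c : Fin m₂ → ℝ × ℝ) (κ : Fin m₂ → ℝ → ℝ) (τ : Fin m₂ → ℝ),
      (∀ x, ‖M x‖ ≤ ∏ m, ‖x m‖) → (∀ m, StronglyMeasurable (a m)) →
      (∀ m, ∀ u ∈ Icc (-1 : ℝ) 1, ‖a m u‖ ≤ 1) → (∀ j, Controlled q D (c j) (κ j) (G j)) →
      ∫⁻ y : (Fin n → ℝ) × ℝ, ‖ext (fun ξ => M (fun m => a m (ξ (e (Sum.inl m)))) *
          ∏ j, (cexp ((τ j * (ξ (e (Sum.inr (Sum.inl j))) ^ 2 + ξ (e (Sum.inr (Sum.inr j))) ^ 2) : ℝ) * I) *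
            G j (ξ (e (Sum.inr (Sum.inl j))), ξ (e (Sum.inr (Sum.inr j)))))) y‖ₑ ^ q
        ≤ C * ∏ j, ∫⁻ r in Ioi (0 : ℝ), ENNReal.ofReal (r * κ j r ^ q) := by
  obtain ⟨C, hC⟩ := Pool.Agent.Y250.AM.main m₁ m₂ n hm₂ hn q hq D hD
  refine ⟨C, ?_⟩
  intro e H _ _ _ M a G c κ τ hM ham hab hG
  set a' : Fin m₁ → ℝ → H := fun m => (Icc (-1 : ℝ) 1).indicator (a m) with ha'
  have hM1 : ‖M‖ ≤ 1 := by
    apply ContinuousMultilinearMap.opNorm_le_bound zero_le_one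
    intro x
    rw [one_mul]
    exact hM x
  have hA : ∀ m, Pool.Agent.TH277.HT.Adm (a' m) := by
    intro m
    constructor
    · exact (ham m).indicator measurableSet_Icc
    · intro u
      by_cases h : u ∈ Icc (-1 : ℝ) 1
      · simp only [ha', indicator_of_mem h]
        exact hab m u h
      · simp only [ha', indicator_of_notMem h, norm_zero]
        exact zero_le_one
  have h1 := hC e H M a' hM1 hA G c κ τ (fun j => (hG j).1) (fun j => (hG j).2.1)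
    (fun j => (hG j).2.2.1) (fun j => (hG j).2.2.2.1) (fun j => (hG j).2.2.2.2.1)
    (fun j => (hG j).2.2.2.2.2)
  have hq0 : 0 ≤ q := by
    have h2 : 0 ≤ 2 * ((n : ℝ) + 1) / n := by positivity
    linarith
  have hJ : ∀ j, Pool.Agent.Y250.AM.Jq q (κ j) = ∫⁻ r in Ioi (0 : ℝ), ENNReal.ofReal (r * κ j r ^ q) := by
    intro j
    unfold Pool.Agent.Y250.AM.Jq
    apply setLIntegral_congr_fun measurableSet_Ioi
    intro r hr
    have hr0 : 0 < r := hr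
    simp only
    rw [ENNReal.ofReal_rpow_of_nonneg ((hG j).2.2.2.2.1 r hr0) hq0, ← ENNReal.ofReal_mul hr0.le]
  simp only [hJ] at h1
  refine le_trans (le_of_eq ?_) h1
  apply lintegral_congr
  intro y
  congr 2
  unfold ext Pool.Agent.TH277.HT.EE
  apply setIntegral_congr_fun measurableSet_Icc
  intro ξ hξ
  have hc : ∀ m, ξ m ∈ Icc (-1 : ℝ) 1 := fun m => ⟨hξ.1 m, hξ.2 m⟩
  have e1 : (fun m => a' m ((Pool.Agent.TH277.CB.Phi e ξ).1 m)) = fun m => a m (ξ (e (Sum.inl m))) := by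
    ext m
    show a' m (ξ (e (Sum.inl m))) = _
    simp only [ha', indicator_of_mem (hc _)]
  show _ = _ * (M (fun m => a' m ((Pool.Agent.TH277.CB.Phi e ξ).1 m)) * _)
  rw [e1]
  exact mul_comm _ _

end Pool.Agent.Results.MP_b7167f_an.PolarBlocks
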