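import Pool.Agent.Y183.PR.S
import Pool.Agent.Y183.PS.V
import Pool.Agent.Y183.PS.Z
set_option autoImplicit false

/-!
The restriction estimate for the paraboloid in `ℝ^d`, `d = m + 2 ≥ 3`, in the whole conjectured range
`q > 2 d / (d - 1)`, for the functions `g(ξ) exp(i φ(ξ))` with oscillation of arbitrary size: the
phase `φ` is, in some orthonormal coordinates, a sum of arbitrary functions of disjoint pairs of
coordinates (polynomials, functions of class `C^(k+1)`, analytic and smooth functions), and the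
amplitude `g` has `s` derivatives in `L^2`, `s > (d + 1) / q - (d - 1) / 2`. The condition on `s` is
sharp for every `q`, even without phases. A second class of amplitudes is arbitrary in one direction.
-/

namespace Pool.Agent.Results.MP_b7167f_an.PolynomialPhases

open MeasureTheory Matrix
open scoped ENNReal NNReal

/-- the cube `[-1, 1]^n` -/
def cube (n : ℕ) : Set (Fin n → ℝ) := Set.Icc (fun _ => -1) (fun _ => 1)

/-- the extension operator of the paraboloid,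
`E f (x, t) = ∫_{[-1,1]^n} f(ξ) exp(2 π i (ξ · x + |ξ|^2 t)) dξ` -/
noncomputable def ext {n : ℕ} (f : (Fin n → ℝ) → ℂ) (y : (Fin n → ℝ) × ℝ) : ℂ :=
  ∫ ξ in cube n, f ξ *
    Complex.exp (2 * Real.pi * Complex.I * ((∑ j, ξ j * y.1 j + (∑ j, ξ j ^ 2) * y.2 : ℝ) : ℂ))

/-- the norm of `E f` in `L^q(ℝ^(n+1))` -/
noncomputable def extNorm {n : ℕ} (q : ℝ) (f : (Fin n → ℝ) → ℂ) : ℝ≥0∞ :=
  (∫⁻ y : (Fin n → ℝ) × ℝ, ‖ext f y‖ₑ ^ q) ^ (1 / q)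

/-- amplitudes of size `K` with `s` derivatives in `L^2`: the measurable functions that vanish off
the cube with `‖g‖_2 ≤ K` and `‖g(· + h) - g‖_2 ≤ K |h|^s` for all `h` -/
def Amp {n : ℕ} (s : ℝ) (K : ℝ≥0) (g : (Fin n → ℝ) → ℂ) : Prop :=
  Measurable g ∧ (∀ ξ, ξ ∉ cube n → g ξ = 0) ∧
    (∫⁻ ξ, ‖g ξ‖ₑ ^ 2) ≤ (K : ℝ≥0∞) ^ 2 ∧
    ∀ h : Fin n → ℝ, (∫⁻ ξ, ‖g (ξ + h) - g ξ‖ₑ ^ 2) ≤ (K * ENNReal.ofReal (‖h‖ ^ s)) ^ 2

/-- amplitudes of size `K` with `s` derivatives, in `L^2`, in the coordinates `v`, and no regularity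
in the coordinate `u`, in which they are only in `L^p`, where `(u, v)` are the coordinates `V ξ` -/
def RoughAmp {m : ℕ} (p s : ℝ) (K : ℝ≥0) (V : Matrix (Fin (m + 1)) (Fin (m + 1)) ℝ)
    (G : (Fin (m + 1) → ℝ) → ℂ) : Prop :=
  Measurable G ∧ (∀ ξ, ξ ∉ cube (m + 1) → G (V *ᵥ ξ) = 0) ∧
    (∫⁻ v : Fin m → ℝ, (∫⁻ u : ℝ, ‖G (Fin.cons u v)‖ₑ ^ p) ^ (2 / p)) ≤ (K : ℝ≥0∞) ^ 2 ∧
    ∀ h : Fin m → ℝ, (∫⁻ v : Fin m → ℝ,
      (∫⁻ u : ℝ, ‖G (Fin.cons u (v + h)) - G (Fin.cons u v)‖ₑ ^ p) ^ (2 / p)) ≤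
        (K * ENNReal.ofReal (‖h‖ ^ s)) ^ 2

/-- a sum of functions of two coordinates each; the coordinates are paired by `σ` -/
noncomputable def pairs {n : ℕ} (σ : Fin n → Fin n) (ψ : Fin n → ℝ × ℝ → ℝ) (x : Fin n → ℝ) : ℝ :=
  ∑ i, ψ i (x i, x (σ i))

/-- the function of two variables given by a polynomial -/
noncomputable def poly (P : MvPolynomial (Fin 2) ℝ) (x : ℝ × ℝ) : ℝ :=
  MvPolynomial.eval ![x.1, x.2] P

/-- the function `g(ξ) exp(i φ(V ξ))` -/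
noncomputable def twist {n : ℕ} (g : (Fin n → ℝ) → ℂ) (V : Matrix (Fin n) (Fin n) ℝ)
    (φ : (Fin n → ℝ) → ℝ) (ξ : Fin n → ℝ) : ℂ :=
  g ξ * Complex.exp (Complex.I * (φ (V *ᵥ ξ) : ℂ))

/-- `T φ ≤ A B(φ)` for all sums `φ` of functions of disjoint pairs of the `n` coordinates, where
`B(φ)` is `(1 + D)^5` for polynomials of degree at most `D`,
`(1 + k)^5 (1 + (M / k!)^(1 / (k+1)))^d` for functions of class `C^(k+1)` with derivatives of order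
`k + 1` of size at most `M` on the square `[-d-1, d+1]^2`, and `(a (1 + R))^d (2 + log l)^5` for `l`
times a sum of functions with derivatives of order `k` of size at most `a R^k k!` there -/
def PhaseBound {n : ℕ} (d : ℕ) (A : ℝ≥0∞) (T : ((Fin n → ℝ) → ℝ) → ℝ≥0∞) : Prop :=
  ∀ σ : Fin n → Fin n, (∀ i, σ (σ i) = i) →
    (∀ (D : ℕ) (P : Fin n → MvPolynomial (Fin 2) ℝ), (∀ i, (P i).totalDegree ≤ D) →
      T (pairs σ fun i => poly (P i)) ≤ A * ENNReal.ofReal ((1 + D : ℝ) ^ 5)) ∧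
    (∀ (k : ℕ) (M : ℝ) (ψ : Fin n → ℝ × ℝ → ℝ), 0 ≤ M → (∀ i, ContDiff ℝ (k + 1 : ℕ) (ψ i)) →
      (∀ i, ∀ x : ℝ × ℝ, |x.1| ≤ d + 1 → |x.2| ≤ d + 1 →
        ‖iteratedFDeriv ℝ (k + 1) (ψ i) x‖ ≤ M) →
      T (pairs σ ψ) ≤ A * ENNReal.ofReal ((1 + k : ℝ) ^ 5 *
        (1 + (M / k.factorial) ^ (1 / ((k : ℝ) + 1))) ^ d)) ∧
    (∀ (a R : ℝ) (ψ : Fin n → ℝ × ℝ → ℝ), 1 ≤ a → 0 ≤ R → (∀ i, ContDiff ℝ (⊤ : ℕ∞) (ψ i)) →
      (∀ i, ∀ k : ℕ, ∀ x : ℝ × ℝ, |x.1| ≤ d + 1 → |x.2| ≤ d + 1 →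
        ‖iteratedFDeriv ℝ k (ψ i) x‖ ≤ a * R ^ k * k.factorial) →
      ∀ l : ℝ, 1 ≤ l → T (fun x => l * pairs σ ψ x) ≤
        A * ENNReal.ofReal ((a * (1 + R)) ^ d * (2 + Real.log l) ^ 5))

lemma PhaseBound.mono_left {n d : ℕ} {A B : ℝ≥0∞} {T : ((Fin n → ℝ) → ℝ) → ℝ≥0∞}
    (h : PhaseBound d A T) (hAB : A ≤ B) : PhaseBound d B T := by
  intro σ hσ
  obtain ⟨h1, h2, h3⟩ := h σ hσ
  refine ⟨?_, ?_, ?_⟩
  · intro D P hP
    exact (h1 D P hP).trans (mul_le_mul' hAB le_rfl)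
  · intro k M ψ hM hψ hb
    exact (h2 k M ψ hM hψ hb).trans (mul_le_mul' hAB le_rfl)
  · intro a R ψ ha hR hψ hb l hl
    exact (h3 a R ψ ha hR hψ hb l hl).trans (mul_le_mul' hAB le_rfl)

lemma ext_eq {n : ℕ} (f : (Fin n → ℝ) → ℂ) : ext f = Pool.Agent.H728R3.SR.ext f := rfl

lemma norm_le {n : ℕ} {q : ℝ} (hq : 0 < q) {f : (Fin n → ℝ) → ℂ} {X : ℝ≥0∞}
    (h : ∫⁻ y : (Fin n → ℝ) × ℝ, ‖Pool.Agent.H728R3.SR.ext f y‖ₑ ^ q ≤ X ^ q) :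
    extNorm q f ≤ X := by
  unfold extNorm
  rw [ext_eq]
  calc _ ≤ (X ^ q) ^ (1 / q) := ENNReal.rpow_le_rpow h (by positivity)
    _ = X := by
      rw [← ENNReal.rpow_mul, mul_one_div_cancel hq.ne', ENNReal.rpow_one]

/-- the three kinds of phases -/
lemma phases {n : ℕ} (m : ℕ) (A : ℝ≥0∞) (T : ((Fin n → ℝ) → ℝ) → ℝ≥0∞)
    (h1 : ∀ σ : Fin n → Fin n, (∀ i, σ (σ i) = i) →
      ∀ (D : ℕ) (P : Fin n → MvPolynomial (Fin 2) ℝ), (∀ i, (P i).totalDegree ≤ D) →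
      T (pairs σ fun i => poly (P i)) ≤ A * ENNReal.ofReal ((1 + D : ℝ) ^ 5))
    (h2 : ∀ σ : Fin n → Fin n, (∀ i, σ (σ i) = i) →
      ∀ (k : ℕ) (M : ℝ) (ψ : Fin n → ℝ × ℝ → ℝ), 0 ≤ M → (∀ i, ContDiff ℝ (k + 1 : ℕ) (ψ i)) →
      (∀ i, ∀ x : ℝ × ℝ, |x.1| ≤ m + 3 → |x.2| ≤ m + 3 →
        ‖iteratedFDeriv ℝ (k + 1) (ψ i) x‖ ≤ M) →
      T (pairs σ ψ) ≤ A * ENNReal.ofReal ((1 + k : ℝ) ^ 5 *
        (1 + (M / k.factorial) ^ (1 / ((k : ℝ) + 1))) ^ (m + 2))) :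
    PhaseBound (m + 2) (6 ^ (m + 2) * A) T := by
  have h6 : (1 : ℝ≥0∞) ≤ 6 ^ (m + 2) := one_le_pow₀ (by norm_num)
  have hA : A ≤ 6 ^ (m + 2) * A := by
    calc A = 1 * A := (one_mul A).symm
      _ ≤ _ := mul_le_mul' h6 le_rfl
  have ed : (((m + 2 : ℕ) : ℝ) + 1) = (m : ℝ) + 3 := by
    push_cast
    ring
  intro σ hσ
  rw [ed]
  refine ⟨?_, ?_, ?_⟩
  · intro D P hP
    exact (h1 σ hσ D P hP).trans (mul_le_mul' hA le_rfl)
  · intro k M ψ hM hψ hb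
    exact (h2 σ hσ k M ψ hM hψ hb).trans (mul_le_mul' hA le_rfl)
  · intro a R ψ ha hR hψ hb l hl
    exact Pool.Agent.Y183.PS.ana_of_ck m σ A T (fun k M ψ hM hψ hb => h2 σ hσ k M ψ hM hψ hb)
      a R ψ ha hR hψ hb l hl

lemma ofReal_cD (D : ℕ) : Pool.Agent.Y183.PQ.cD D = ENNReal.ofReal ((1 + D : ℝ) ^ 5) := rfl

/-- products with a number at least one -/
lemma pow_mono_one (X : ℝ) (hX : 1 ≤ X) (m : ℕ) : X ^ (m + 1) ≤ X ^ (m + 2) :=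
  pow_le_pow_right₀ hX (by omega)

theorem result (m : ℕ) (hm : 1 ≤ m) (q : ℝ) (hq : 2 * ((m : ℝ) + 2) / (m + 1) < q) :
    -- above the critical regularity `(d + 1) / q - (d - 1) / 2` the estimate holds, `d = m + 2`
    (∀ s : ℝ, 0 ≤ s → s ≤ 1 → ((m : ℝ) + 3) / q - (m + 1) / 2 < s →
      (∃ C : ℝ≥0, ∀ V : Matrix (Fin (m + 1)) (Fin (m + 1)) ℝ, Vᵀ * V = 1 →
        ∀ (K : ℝ≥0) (g : (Fin (m + 1) → ℝ) → ℂ), Amp s K g →
          PhaseBound (m + 2) (C * K) fun φ => extNorm q (twist g V φ)) ∧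
      (∀ (σ : Fin (m + 1) → Fin (m + 1)) (ψ : Fin (m + 1) → ℝ × ℝ → ℝ), (∀ i, σ (σ i) = i) →
        (∀ i, ContDiff ℝ (⊤ : ℕ∞) (ψ i)) → ∀ ε : ℝ, 0 < ε → ∃ C : ℝ≥0,
        ∀ V : Matrix (Fin (m + 1)) (Fin (m + 1)) ℝ, Vᵀ * V = 1 →
        ∀ (K : ℝ≥0) (g : (Fin (m + 1) → ℝ) → ℂ), Amp s K g → ∀ l : ℝ, 1 ≤ l →
          extNorm q (twist g V (fun x => l * pairs σ ψ x)) ≤ C * K * ENNReal.ofReal (l ^ ε))) ∧
    -- below the critical regularity it fails, even without phases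
    (∀ s : ℝ, 0 ≤ s → s < ((m : ℝ) + 3) / q - (m + 1) / 2 → ∀ C : ℝ≥0,
        ∃ (K : ℝ≥0) (g : (Fin (m + 1) → ℝ) → ℂ), Amp s K g ∧ C * K < extNorm q g) ∧
    -- amplitudes without any regularity in one direction
    (∀ p s : ℝ, 2 ≤ p → 1 / p < 1 - ((m : ℝ) + 3) / ((m + 1) * q) →
      (m : ℝ) / ((m + 1) * q) < s → s ≤ 1 →
      (∃ C : ℝ≥0, ∀ V : Matrix (Fin (m + 1)) (Fin (m + 1)) ℝ, Vᵀ * V = 1 →
        ∀ (K : ℝ≥0) (G : (Fin (m + 1) → ℝ) → ℂ), RoughAmp p s K V G →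
          PhaseBound (m + 2) (C * K) fun φ : (Fin m → ℝ) → ℝ =>
            extNorm q (twist (fun ξ => G (V *ᵥ ξ)) V (fun x => φ (Fin.tail x)))) ∧
      (∀ (σ : Fin m → Fin m) (ψ : Fin m → ℝ × ℝ → ℝ), (∀ i, σ (σ i) = i) →
        (∀ i, ContDiff ℝ (⊤ : ℕ∞) (ψ i)) → ∀ ε : ℝ, 0 < ε → ∃ C : ℝ≥0,
        ∀ V : Matrix (Fin (m + 1)) (Fin (m + 1)) ℝ, Vᵀ * V = 1 →
        ∀ (K : ℝ≥0) (G : (Fin (m + 1) → ℝ) → ℂ), RoughAmp p s K V G → ∀ l : ℝ, 1 ≤ l →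
          extNorm q (twist (fun ξ => G (V *ᵥ ξ)) V (fun x => l * pairs σ ψ (Fin.tail x))) ≤
            C * K * ENNReal.ofReal (l ^ ε))) ∧
    -- bounded functions of bounded variation, and their products with an arbitrary bounded function
    -- of one coordinate, are such amplitudes
    (∃ c : ℝ≥0, ∀ g : (Fin (m + 1) → ℝ) → ℂ, Measurable g → (∀ ξ, ξ ∉ cube (m + 1) → g ξ = 0) →
      (∀ ξ, ‖g ξ‖ ≤ 1) → ∀ W : ℝ≥0, 1 ≤ W →
      (∀ h : Fin (m + 1) → ℝ, (∫⁻ ξ, ‖g (ξ + h) - g ξ‖ₑ) ≤ W * ENNReal.ofReal ‖h‖) →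
      (∀ s : ℝ, 0 ≤ s → s ≤ 1 / 2 → Amp s (c * W ^ s) g) ∧
      (∀ p : ℝ, 2 ≤ p → ∀ V : Matrix (Fin (m + 1)) (Fin (m + 1)) ℝ, Vᵀ * V = 1 →
        ∀ b : ℝ → ℂ, Measurable b → (∀ u, ‖b u‖ ≤ 1) →
        ∃ G : (Fin (m + 1) → ℝ) → ℂ, (∀ ξ, G (V *ᵥ ξ) = g ξ * b ((V *ᵥ ξ) 0)) ∧
          RoughAmp p (1 / p) (c * W ^ (1 / p)) V G)) := by
  have hm0 : (0 : ℝ) < m := by exact_mod_cast (show 0 < m by omega)
  have hq0 : 0 < q := lt_trans (by positivity) hq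
  have hq' : 2 * (((m + 1 : ℕ) : ℝ) + 1) / ((m + 1 : ℕ) : ℝ) < q := by
    refine lt_of_eq_of_lt ?_ hq
    push_cast
    ring
  refine ⟨?_, ?_, ?_, ?_⟩
  · intro s hs0 hs1 hs
    have hs' : (((m + 1 : ℕ) : ℝ) + 2) / q - ((m + 1 : ℕ) : ℝ) / 2 < s := by
      refine lt_of_eq_of_lt ?_ hs
      push_cast
      ring
    obtain ⟨C₁, hC₁⟩ := Pool.Agent.Y183.PS.fullI m q s hs0 hs1 hq' hs'
    obtain ⟨C₂, hC₂⟩ := Pool.Agent.Y183.PS.smoothFull m q s hs0 hs1 hq' hs'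
    have key1 : ∀ V : Matrix (Fin (m + 1)) (Fin (m + 1)) ℝ, Vᵀ * V = 1 →
        ∀ (K : ℝ≥0) (g : (Fin (m + 1) → ℝ) → ℂ), Amp s K g →
        ∀ σ : Fin (m + 1) → Fin (m + 1), (∀ i, σ (σ i) = i) →
        ∀ (D : ℕ) (P : Fin (m + 1) → MvPolynomial (Fin 2) ℝ), (∀ i, (P i).totalDegree ≤ D) →
        extNorm q (twist g V (pairs σ fun i => poly (P i))) ≤
          ((C₁ + C₂ : ℝ≥0) * K : ℝ≥0∞) * ENNReal.ofReal ((1 + D : ℝ) ^ 5) := by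
      intro V hV K g ⟨hg, hz, hN, hR⟩ σ hσ D P hP
      refine (norm_le hq0 (hC₁ D σ hσ P hP V hV g hg hz K ENNReal.coe_ne_top hN hR)).trans ?_
      rw [ofReal_cD, mul_right_comm]
      apply mul_le_mul' (mul_le_mul' _ le_rfl) le_rfl
      exact_mod_cast (le_self_add : C₁ ≤ C₁ + C₂)
    have key2 : ∀ V : Matrix (Fin (m + 1)) (Fin (m + 1)) ℝ, Vᵀ * V = 1 →
        ∀ (K : ℝ≥0) (g : (Fin (m + 1) → ℝ) → ℂ), Amp s K g →
        ∀ σ : Fin (m + 1) → Fin (m + 1), (∀ i, σ (σ i) = i) →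
        ∀ (k : ℕ) (M : ℝ) (ψ : Fin (m + 1) → ℝ × ℝ → ℝ), 0 ≤ M →
        (∀ i, ContDiff ℝ (k + 1 : ℕ) (ψ i)) →
        (∀ i, ∀ x : ℝ × ℝ, |x.1| ≤ m + 3 → |x.2| ≤ m + 3 →
          ‖iteratedFDeriv ℝ (k + 1) (ψ i) x‖ ≤ M) →
        extNorm q (twist g V (pairs σ ψ)) ≤ ((C₁ + C₂ : ℝ≥0) * K : ℝ≥0∞) *
          ENNReal.ofReal ((1 + k : ℝ) ^ 5 *
            (1 + (M / k.factorial) ^ (1 / ((k : ℝ) + 1))) ^ (m + 2)) := by
      intro V hV K g ⟨hg, hz, hN, hR⟩ σ hσ k M ψ hM hψ hb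
      refine (norm_le hq0 (hC₂ k M hM σ hσ ψ hψ hb V hV g hg hz K ENNReal.coe_ne_top hN hR)).trans ?_
      rw [ofReal_cD, mul_assoc (C₂ : ℝ≥0∞), ← ENNReal.ofReal_mul (by positivity), mul_right_comm]
      apply mul_le_mul' (mul_le_mul' _ le_rfl) le_rfl
      exact_mod_cast (le_add_self : C₂ ≤ C₁ + C₂)
    constructor
    · refine ⟨6 ^ (m + 2) * (C₁ + C₂), ?_⟩
      intro V hV K g hg
      have h := phases m ((C₁ + C₂ : ℝ≥0) * K : ℝ≥0∞) (fun φ => extNorm q (twist g V φ))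
        (key1 V hV K g hg) (key2 V hV K g hg)
      refine h.mono_left (le_of_eq ?_)
      push_cast
      ring
    · intro σ ψ hσ hψ ε hε
      obtain ⟨c, hc⟩ := Pool.Agent.Y183.PS.eps_of_ck m σ ψ hψ ε hε
      refine ⟨c * (C₁ + C₂), ?_⟩
      intro V hV K g hg l hl
      refine (hc ((C₁ + C₂ : ℝ≥0) * K : ℝ≥0∞) (fun φ => extNorm q (twist g V φ))
        (fun k M ψ hM hψ hb => key2 V hV K g hg σ hσ k M ψ hM hψ hb) l hl).trans (le_of_eq ?_)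
      push_cast
      ring
  · intro s hs0 hs1 C
    have hs2 : s ≤ 1 / 2 := by
      have h1 : ((m : ℝ) + 3) / q < (m + 3) * ((m + 1) / (2 * (m + 2))) := by
        rw [div_lt_iff₀ (by positivity)] at hq
        rw [div_lt_iff₀ hq0, mul_assoc]
        have h2 : (1 : ℝ) < (m + 1) / (2 * (m + 2)) * q := by
          rw [div_mul_eq_mul_div, lt_div_iff₀ (by positivity)]
          nlinarith
        nlinarith
      have h3 : ((m : ℝ) + 3) * ((m + 1) / (2 * (m + 2))) - (m + 1) / 2 =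
          (m + 1) / (2 * (m + 2)) := by
        field_simp
        ring
      have h4 : ((m : ℝ) + 1) / (2 * (m + 2)) ≤ 1 / 2 := by
        rw [div_le_div_iff₀ (by positivity) (by norm_num)]
        linarith
      linarith
    have hcond : q * (((m + 1 : ℕ) : ℝ) / 2 + s) < ((m + 1 : ℕ) : ℝ) + 2 := by
      have h1 : ((m : ℝ) + 1) / 2 + s < (m + 3) / q := by linarith
      rw [lt_div_iff₀ hq0] at h1
      push_cast
      nlinarith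
    obtain ⟨g, K, hg, hz, hN, hR, hlow⟩ := Pool.Agent.Y183.PR.Sharp.sharp (n := m + 1) (by omega) s
      q hs0 hs2 hq0 hcond C
    refine ⟨K, g, ⟨hg, hz, hN, hR⟩, ?_⟩
    have h3 := ENNReal.rpow_lt_rpow hlow (show 0 < 1 / q by positivity)
    rw [← ENNReal.rpow_mul, mul_one_div_cancel hq0.ne', ENNReal.rpow_one] at h3
    exact h3
  · intro p s hp2 hp hs hs1
    have hp' : ((m : ℝ) + 1) * q < p * ((m + 1) * (q - 1) - 2) := by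
      have hp0 : 0 < p := by linarith
      have h1 : (0 : ℝ) < (m + 1) * q := by positivity
      have h2 : (1 / p) * (p * ((m + 1) * q)) <
          (1 - ((m : ℝ) + 3) / ((m + 1) * q)) * (p * ((m + 1) * q)) :=
        mul_lt_mul_of_pos_right hp (by positivity)
      have e1 : (1 / p) * (p * ((m + 1) * q)) = (m + 1) * q := by field_simp
      have e2 : (1 - ((m : ℝ) + 3) / ((m + 1) * q)) * (p * ((m + 1) * q)) =
          p * ((m + 1) * (q - 1) - 2) := by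
        field_simp
        ring
      rwa [e1, e2] at h2
    obtain ⟨C₁, hC₁⟩ := Pool.Agent.Y183.PS.roughI m hm q p s hs hs1 hq hp2 hp'
    obtain ⟨C₂, hC₂⟩ := Pool.Agent.Y183.PS.smoothRough m hm q p s hs hs1 hq hp2 hp'
    have key1 : ∀ V : Matrix (Fin (m + 1)) (Fin (m + 1)) ℝ, Vᵀ * V = 1 →
        ∀ (K : ℝ≥0) (G : (Fin (m + 1) → ℝ) → ℂ), RoughAmp p s K V G →
        ∀ σ : Fin m → Fin m, (∀ i, σ (σ i) = i) →
        ∀ (D : ℕ) (P : Fin m → MvPolynomial (Fin 2) ℝ), (∀ i, (P i).totalDegree ≤ D) →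
        extNorm q (twist (fun ξ => G (V *ᵥ ξ)) V (fun x => pairs σ (fun i => poly (P i))
          (Fin.tail x))) ≤
          ((C₁ + C₂ : ℝ≥0) * K : ℝ≥0∞) * ENNReal.ofReal ((1 + D : ℝ) ^ 5) := by
      intro V hV K G ⟨hG, hz, hN, hR⟩ σ hσ D P hP
      refine (norm_le hq0 (hC₁ D σ hσ P hP V hV G hG hz K ENNReal.coe_ne_top hN hR)).trans ?_
      rw [ofReal_cD, mul_right_comm]
      apply mul_le_mul' (mul_le_mul' _ le_rfl) le_rfl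
      exact_mod_cast (le_self_add : C₁ ≤ C₁ + C₂)
    have key2 : ∀ V : Matrix (Fin (m + 1)) (Fin (m + 1)) ℝ, Vᵀ * V = 1 →
        ∀ (K : ℝ≥0) (G : (Fin (m + 1) → ℝ) → ℂ), RoughAmp p s K V G →
        ∀ σ : Fin m → Fin m, (∀ i, σ (σ i) = i) →
        ∀ (k : ℕ) (M : ℝ) (ψ : Fin m → ℝ × ℝ → ℝ), 0 ≤ M →
        (∀ i, ContDiff ℝ (k + 1 : ℕ) (ψ i)) →
        (∀ i, ∀ x : ℝ × ℝ, |x.1| ≤ m + 3 → |x.2| ≤ m + 3 →
          ‖iteratedFDeriv ℝ (k + 1) (ψ i) x‖ ≤ M) →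
        extNorm q (twist (fun ξ => G (V *ᵥ ξ)) V (fun x => pairs σ ψ (Fin.tail x))) ≤
          ((C₁ + C₂ : ℝ≥0) * K : ℝ≥0∞) * ENNReal.ofReal ((1 + k : ℝ) ^ 5 *
            (1 + (M / k.factorial) ^ (1 / ((k : ℝ) + 1))) ^ (m + 2)) := by
      intro V hV K G ⟨hG, hz, hN, hR⟩ σ hσ k M ψ hM hψ hb
      refine (norm_le hq0 (hC₂ k M hM σ hσ ψ hψ hb V hV G hG hz K ENNReal.coe_ne_top hN hR)).trans ?_
      have hX : (1 : ℝ) ≤ 1 + (M / k.factorial) ^ (1 / ((k : ℝ) + 1)) := by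
        have : 0 ≤ (M / k.factorial) ^ (1 / ((k : ℝ) + 1)) := by positivity
        linarith
      rw [ofReal_cD, mul_assoc (C₂ : ℝ≥0∞), ← ENNReal.ofReal_mul (by positivity), mul_right_comm]
      apply mul_le_mul' (mul_le_mul' _ le_rfl)
      · apply ENNReal.ofReal_le_ofReal
        exact mul_le_mul_of_nonneg_left (pow_mono_one _ hX m) (by positivity)
      · exact_mod_cast (le_add_self : C₂ ≤ C₁ + C₂)
    constructor
    · refine ⟨6 ^ (m + 2) * (C₁ + C₂), ?_⟩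
      intro V hV K G hG
      have h := phases m ((C₁ + C₂ : ℝ≥0) * K : ℝ≥0∞) (fun φ : (Fin m → ℝ) → ℝ =>
        extNorm q (twist (fun ξ => G (V *ᵥ ξ)) V (fun x => φ (Fin.tail x))))
        (key1 V hV K G hG) (key2 V hV K G hG)
      refine h.mono_left (le_of_eq ?_)
      push_cast
      ring
    · intro σ ψ hσ hψ ε hε
      obtain ⟨c, hc⟩ := Pool.Agent.Y183.PS.eps_of_ck m σ ψ hψ ε hε
      refine ⟨c * (C₁ + C₂), ?_⟩
      intro V hV K G hG l hl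
      refine (hc ((C₁ + C₂ : ℝ≥0) * K : ℝ≥0∞) (fun φ : (Fin m → ℝ) → ℝ =>
        extNorm q (twist (fun ξ => G (V *ᵥ ξ)) V (fun x => φ (Fin.tail x))))
        (fun k M ψ hM hψ hb => key2 V hV K G hG σ hσ k M ψ hM hψ hb) l hl).trans (le_of_eq ?_)
      push_cast
      ring
  · have hct : Pool.Agent.Y183.PS.cbv m ≠ ∞ := by
      unfold Pool.Agent.Y183.PS.cbv
      finiteness
    refine ⟨2 ^ (m + 3) + (Pool.Agent.Y183.PS.cbv m).toNNReal, ?_⟩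
    intro g hg hz hbd W hW hM
    constructor
    · intro s hs0 hs
      obtain ⟨h1, h2⟩ := Pool.Agent.Y183.PS.bv_amp s hs0 hs g hg hz hbd W hW hM
      have hle : (2 : ℝ≥0∞) ^ (m + 1 + 2) * (W : ℝ≥0∞) ^ s ≤
          (((2 ^ (m + 3) + (Pool.Agent.Y183.PS.cbv m).toNNReal) * W ^ s : ℝ≥0) : ℝ≥0∞) := by
        rw [ENNReal.coe_mul, ENNReal.coe_rpow_of_nonneg _ hs0]
        apply mul_le_mul' _ le_rfl
        rw [ENNReal.coe_add]
        refine le_trans (le_of_eq ?_) le_self_add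
        push_cast
        rfl
      refine ⟨hg, hz, h1.trans (pow_le_pow_left' hle 2), ?_⟩
      intro h
      exact (h2 h).trans (pow_le_pow_left' (mul_le_mul' hle le_rfl) 2)
    · intro p hp V hV b hb hb1
      obtain ⟨h0, h1, h2, h3⟩ := Pool.Agent.Y183.PS.bv_rough p hp V hV b hb hb1 g hg hz hbd W hW hM
      have hp0 : 0 ≤ 1 / p := by positivity
      have hle : Pool.Agent.Y183.PS.cbv m * (W : ℝ≥0∞) ^ (1 / p) ≤
          (((2 ^ (m + 3) + (Pool.Agent.Y183.PS.cbv m).toNNReal) * W ^ (1 / p) : ℝ≥0) : ℝ≥0∞) := by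
        rw [ENNReal.coe_mul, ENNReal.coe_rpow_of_nonneg _ hp0]
        apply mul_le_mul' _ le_rfl
        rw [ENNReal.coe_add, ENNReal.coe_toNNReal hct]
        exact le_add_self
      refine ⟨fun x => g (Vᵀ *ᵥ x) * b (x 0), h1, h0, ?_, h2.trans (pow_le_pow_left' hle 2), ?_⟩
      · intro ξ hξ
        show g (Vᵀ *ᵥ (V *ᵥ ξ)) * b ((V *ᵥ ξ) 0) = 0
        rw [h1, hz ξ hξ, zero_mul]
      · intro h
        exact (h3 h).trans (pow_le_pow_left' (mul_le_mul' hle le_rfl) 2)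

end Pool.Agent.Results.MP_b7167f_an.PolynomialPhases
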