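import Mathlib
import Pool.Agent.Y247.QT.G
set_option autoImplicit false

/-!
# The restriction conjecture, uniformly over all quadratic twists

Let `n = m + 1 ≥ 2`, `d = n + 1` and `q > 2d/(d-1)`, the full range of the restriction conjecture for
the paraboloid in `ℝ^d`.  For every real matrix `A` (of any size and signature) and every function
`g` on `ℝ^n`, supported in the cube `[-1,1]^n`, with regularity `s = (d-2)/(2d)` in `L^p`,

  `‖E (g · exp (2πi ⟨ξ, A ξ⟩))‖_q ≤ C ‖g‖`,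

where the constant `C` does not depend on `A`.  In particular `g` can be any bounded function of
bounded variation, for instance the characteristic function of a set of finite perimeter; so the
conjecture holds, with a uniform constant, for such functions twisted by arbitrary quadratic phases.
If the quadratic form is diagonal, `g` need not have any regularity in the first variable.

Method.  In the eigenbasis of the quadratic form the times `t + λ_j` are different in the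
coordinates; a dyadic martingale difference of `g` sees in the `j`-th coordinate only the part
`2^k / |t + λ_j|` of the frequencies, and Hölder's inequality in time for the product of these
shifted weights, against the sharp mixed norm estimate for the vector valued extension operator of
the parabola in the remaining coordinate, gives the same bound for all `λ`.
-/

namespace Pool.Agent.Results.MP_b7167f_an.QuadraticTwists

open MeasureTheory Set Complex Matrix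
open scoped ENNReal NNReal

/-- The closed cube `[-1,1]^n`. -/
abbrev cube (n : ℕ) : Set (Fin n → ℝ) := Icc (fun _ : Fin n => (-1 : ℝ)) (fun _ => 1)

/-- The extension operator of the truncated paraboloid in `ℝ^(n+1)`:
`Ef(x,t) = ∫_{[-1,1]^n} f(ξ) exp(2πi(ξ·x + |ξ|² t)) dξ`. -/
noncomputable def ext {n : ℕ} (f : (Fin n → ℝ) → ℂ) (y : (Fin n → ℝ) × ℝ) : ℂ :=
  ∫ ξ in cube n,
    f ξ * cexp (2 * Real.pi * I * ((∑ j, ξ j * y.1 j + (∑ j, ξ j ^ 2) * y.2 : ℝ) : ℂ))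

/-- The quadratic exponential `exp (2 π i ∑ A j k ξ_j ξ_k)`. -/
noncomputable def chirp {n : ℕ} (A : Matrix (Fin n) (Fin n) ℝ) (ξ : Fin n → ℝ) : ℂ :=
  cexp (2 * Real.pi * I * ((∑ j, ∑ k, A j k * ξ j * ξ k : ℝ) : ℂ))

lemma chirp_eq {n : ℕ} (A : Matrix (Fin n) (Fin n) ℝ) (ξ : Fin n → ℝ) :
    chirp A ξ = Pool.Agent.Y247.QT.ch A ξ := by
  unfold chirp Pool.Agent.Y247.QT.ch
  congr 3
  unfold dotProduct mulVec dotProduct
  apply Finset.sum_congr rfl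
  intro j _
  rw [Finset.mul_sum]
  apply Finset.sum_congr rfl
  intro k _
  ring

/-- the constant `K = 0` -/
lemma of_pos (q : ℝ) (C K : ℝ≥0) (J : ℝ≥0∞)
    (key : ∀ L : ℝ≥0, K ≤ L → L ≠ 0 → J ≤ (C * L : ℝ≥0∞) ^ q) : J ≤ (C * K : ℝ≥0∞) ^ q := by
  have hn : ∀ n : ℕ, J ≤ (C * (K + ((n : ℝ≥0∞) + 1)⁻¹) : ℝ≥0∞) ^ q := by
    intro n
    have h1 := key (K + ((n : ℝ≥0) + 1)⁻¹) le_self_add (by positivity)
    have h2 : (((K + ((n : ℝ≥0) + 1)⁻¹ : ℝ≥0)) : ℝ≥0∞) = K + ((n : ℝ≥0∞) + 1)⁻¹ := by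
      rw [ENNReal.coe_add, ENNReal.coe_inv (by positivity)]
      push_cast
      rfl
    rwa [h2] at h1
  have ht : Filter.Tendsto (fun n : ℕ => ((n : ℝ≥0∞) + 1)⁻¹) Filter.atTop (nhds 0) := by
    have h1 := ENNReal.tendsto_inv_nat_nhds_zero
    have h2 := (Filter.tendsto_add_atTop_iff_nat 1).mpr h1
    refine h2.congr fun n => ?_
    push_cast
    rfl
  have hlim : Filter.Tendsto (fun n : ℕ => (C * (K + ((n : ℝ≥0∞) + 1)⁻¹) : ℝ≥0∞) ^ q) Filter.atTop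
      (nhds ((C * K : ℝ≥0∞) ^ q)) := by
    have h1 : Filter.Tendsto (fun n : ℕ => (K : ℝ≥0∞) + ((n : ℝ≥0∞) + 1)⁻¹) Filter.atTop
        (nhds (K + 0)) := tendsto_const_nhds.add ht
    rw [add_zero] at h1
    have h2 := ENNReal.Tendsto.const_mul (a := (C : ℝ≥0∞)) h1 (Or.inr ENNReal.coe_ne_top)
    exact (ENNReal.continuous_rpow_const (y := q)).continuousAt.tendsto.comp h2
  exact ge_of_tendsto' hlim hn

/-- all quadratic twists, regularity in `L^p` -/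
theorem all_twists (m : ℕ) (hm : 1 ≤ m) (q p : ℝ) (hq : 2 * ((m : ℝ) + 2) / (m + 1) < q)
    (hp2 : 2 ≤ p) (hp : ((m : ℝ) + 1) * q < p * ((m + 1) * (q - 1) - 2)) :
    ∃ C : ℝ≥0, ∀ (A : Matrix (Fin (m + 1)) (Fin (m + 1)) ℝ) (g : (Fin (m + 1) → ℝ) → ℂ) (K : ℝ≥0),
      Measurable g → (∀ ξ, ξ ∉ cube (m + 1) → g ξ = 0) →
      (∫⁻ ξ, ‖g ξ‖ₑ ^ p ≤ (K : ℝ≥0∞) ^ p) →
      (∀ h : Fin (m + 1) → ℝ, ∫⁻ ξ, ‖g (ξ + h) - g ξ‖ₑ ^ p ≤
        (K * ENNReal.ofReal (‖h‖ ^ ((m : ℝ) / (2 * (m + 2))))) ^ p) →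
      ∫⁻ y : (Fin (m + 1) → ℝ) × ℝ, ‖ext (fun ξ => g ξ * chirp A ξ) y‖ₑ ^ q ≤
        (C * K : ℝ≥0∞) ^ q := by
  obtain ⟨C, hC⟩ := Pool.Agent.Y247.QT.allTwists hm q p hq hp2 hp
  refine ⟨C, ?_⟩
  intro A g K hg hz hN hM
  have hp0 : 0 ≤ p := by linarith
  apply of_pos
  intro L hKL hL0
  have hKL' : (K : ℝ≥0∞) ≤ L := by exact_mod_cast hKL
  have h := hC A g hg hz L (by exact_mod_cast hL0) ENNReal.coe_ne_top
    (hN.trans (ENNReal.rpow_le_rpow hKL' hp0))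
    (fun h => (hM h).trans (ENNReal.rpow_le_rpow (mul_le_mul' hKL' le_rfl) hp0))
  have e : (fun ξ => g ξ * chirp A ξ) = fun ξ => g ξ * Pool.Agent.Y247.QT.ch A ξ := by
    ext ξ
    rw [chirp_eq]
  rw [e]
  exact h

/-- bounded functions of bounded variation -/
theorem bv_twists (m : ℕ) (hm : 1 ≤ m) (q : ℝ) (hq : 2 * ((m : ℝ) + 2) / (m + 1) < q) :
    ∃ C : ℝ≥0, ∀ (A : Matrix (Fin (m + 1)) (Fin (m + 1)) ℝ) (g : (Fin (m + 1) → ℝ) → ℂ) (V : ℝ≥0),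
      1 ≤ V → Measurable g → (∀ ξ, ξ ∉ cube (m + 1) → g ξ = 0) → (∀ ξ, ‖g ξ‖ ≤ 1) →
      (∀ h : Fin (m + 1) → ℝ, ∫⁻ ξ, ‖g (ξ + h) - g ξ‖ₑ ≤ V * ENNReal.ofReal ‖h‖) →
      ∫⁻ y : (Fin (m + 1) → ℝ) × ℝ, ‖ext (fun ξ => g ξ * chirp A ξ) y‖ₑ ^ q ≤
        (C * (V : ℝ≥0∞) ^ ((m : ℝ) / (2 * (m + 2)))) ^ q := by
  have hm0 : (1 : ℝ) ≤ m := by exact_mod_cast hm
  set p : ℝ := 2 * (m + 2) / m with hpd
  have hmp : (0 : ℝ) < m := by linarith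
  have hpm : p * m = 2 * (m + 2) := by
    rw [hpd]
    field_simp
  have hp2 : 2 ≤ p := by
    rw [hpd, le_div_iff₀ hmp]
    linarith
  have hp : ((m : ℝ) + 1) * q < p * ((m + 1) * (q - 1) - 2) := by
    rw [div_lt_iff₀ (by linarith)] at hq
    rw [hpd, div_mul_eq_mul_div, lt_div_iff₀ hmp]
    nlinarith
  set s : ℝ := (m : ℝ) / (2 * (m + 2)) with hs
  have hsp : s * p = 1 := by
    rw [hs, hpd]
    field_simp
  have hs0 : 0 ≤ s := by positivity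
  have hp0 : 0 ≤ p := by linarith
  obtain ⟨C, hC⟩ := all_twists m hm q p hq hp2 hp
  have hc2 : ((2 : ℝ≥0∞) ^ (m + 1)) ≠ ∞ := ENNReal.pow_ne_top (by norm_num)
  refine ⟨C * 2 ^ (m + 1), ?_⟩
  intro A g V hV hg hz hb hM
  have hVt : (V : ℝ≥0∞) ^ s ≠ ∞ := ENNReal.rpow_ne_top_of_nonneg hs0 ENNReal.coe_ne_top
  set K : ℝ≥0 := 2 ^ (m + 1) * V ^ s with hK
  have hKe : (K : ℝ≥0∞) = 2 ^ (m + 1) * (V : ℝ≥0∞) ^ s := by
    rw [hK]
    push_cast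
    rw [ENNReal.coe_rpow_of_nonneg _ hs0]
  have hKp : (K : ℝ≥0∞) ^ p = (2 ^ (m + 1)) ^ p * V := by
    rw [hKe, ENNReal.mul_rpow_of_nonneg _ _ hp0, ← ENNReal.rpow_mul, hsp, ENNReal.rpow_one]
  have hVe : (1 : ℝ≥0∞) ≤ V := by exact_mod_cast hV
  have hbe : ∀ ξ, ‖g ξ‖ₑ ≤ 1 := by
    intro ξ
    rw [← ofReal_norm, ← ENNReal.ofReal_one]
    exact ENNReal.ofReal_le_ofReal (hb ξ)
  have hcm : MeasurableSet (cube (m + 1)) := measurableSet_Icc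
  have hcv : volume (cube (m + 1)) = 2 ^ (m + 1) := by
    exact Pool.Agent.Y247.QT.Cb_vol (m := m + 1)
  have h1le : (1 : ℝ≥0∞) ≤ 2 ^ (m + 1) := one_le_pow₀ (by norm_num)
  have hN : ∫⁻ ξ, ‖g ξ‖ₑ ^ p ≤ (K : ℝ≥0∞) ^ p := by
    calc ∫⁻ ξ, ‖g ξ‖ₑ ^ p ≤ ∫⁻ ξ, (cube (m + 1)).indicator (fun _ => (1 : ℝ≥0∞)) ξ := by
          apply lintegral_mono
          intro ξ
          simp only
          by_cases h : ξ ∈ cube (m + 1)
          · rw [indicator_of_mem h]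
            exact ENNReal.rpow_le_one (hbe ξ) hp0
          · rw [indicator_of_notMem h, hz ξ h, enorm_zero, ENNReal.zero_rpow_of_pos (by linarith)]
      _ = 2 ^ (m + 1) := by
          rw [lintegral_indicator hcm, lintegral_const, Measure.restrict_apply_univ, one_mul, hcv]
      _ ≤ (2 ^ (m + 1)) ^ p * 1 := by
          rw [mul_one]
          calc (2 : ℝ≥0∞) ^ (m + 1) = (2 ^ (m + 1)) ^ (1 : ℝ) := (ENNReal.rpow_one _).symm
            _ ≤ _ := ENNReal.rpow_le_rpow_of_exponent_le h1le (by linarith)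
      _ ≤ (2 ^ (m + 1)) ^ p * V := by gcongr
      _ = _ := hKp.symm
  have hM' : ∀ h : Fin (m + 1) → ℝ, ∫⁻ ξ, ‖g (ξ + h) - g ξ‖ₑ ^ p ≤
        (K * ENNReal.ofReal (‖h‖ ^ s)) ^ p := by
    intro h
    have e0 : ENNReal.ofReal (‖h‖ ^ s) ^ p = ENNReal.ofReal ‖h‖ := by
      rw [ENNReal.ofReal_rpow_of_nonneg (by positivity) hp0, ← Real.rpow_mul (norm_nonneg _), hsp,
        Real.rpow_one]
    have h2 : ∀ ξ, ‖g (ξ + h) - g ξ‖ₑ ^ p ≤ (2 : ℝ≥0∞) ^ (p - 1) * ‖g (ξ + h) - g ξ‖ₑ := by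
      intro ξ
      have h3 : ‖g (ξ + h) - g ξ‖ₑ ≤ 2 := by
        refine (enorm_sub_le).trans ?_
        calc ‖g (ξ + h)‖ₑ + ‖g ξ‖ₑ ≤ 1 + 1 := add_le_add (hbe _) (hbe _)
          _ = 2 := by norm_num
      calc ‖g (ξ + h) - g ξ‖ₑ ^ p = ‖g (ξ + h) - g ξ‖ₑ ^ ((p - 1) + 1) := by
            congr 1
            ring
        _ = ‖g (ξ + h) - g ξ‖ₑ ^ (p - 1) * ‖g (ξ + h) - g ξ‖ₑ := by
            rw [ENNReal.rpow_add_of_nonneg _ _ (by linarith) zero_le_one, ENNReal.rpow_one]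
        _ ≤ _ := by
            gcongr
            linarith
    have h2t : (2 : ℝ≥0∞) ^ (p - 1) ≠ ∞ :=
      ENNReal.rpow_ne_top_of_nonneg (by linarith) (by norm_num)
    calc ∫⁻ ξ, ‖g (ξ + h) - g ξ‖ₑ ^ p ≤ ∫⁻ ξ, (2 : ℝ≥0∞) ^ (p - 1) * ‖g (ξ + h) - g ξ‖ₑ :=
          lintegral_mono h2
      _ = (2 : ℝ≥0∞) ^ (p - 1) * ∫⁻ ξ, ‖g (ξ + h) - g ξ‖ₑ := lintegral_const_mul' _ _ h2t
      _ ≤ (2 ^ (m + 1)) ^ p * (V * ENNReal.ofReal ‖h‖) := by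
          refine mul_le_mul' ?_ (hM h)
          calc (2 : ℝ≥0∞) ^ (p - 1) ≤ 2 ^ p :=
                ENNReal.rpow_le_rpow_of_exponent_le (by norm_num) (by linarith)
            _ ≤ _ := by
                apply ENNReal.rpow_le_rpow _ hp0
                calc (2 : ℝ≥0∞) = 2 ^ 1 := (pow_one _).symm
                  _ ≤ _ := pow_le_pow_right₀ (by norm_num) (by omega)
      _ = _ := by
          rw [ENNReal.mul_rpow_of_nonneg _ _ hp0, e0, hKp]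
          ring
  refine (hC A g K hg hz hN hM').trans (le_of_eq ?_)
  rw [hKe]
  push_cast
  congr 1
  ring

/-- diagonal twists of functions which are rough in the first variable -/
theorem diagonal_twists (m : ℕ) (hm : 1 ≤ m) (q p : ℝ) (hq : 2 * ((m : ℝ) + 2) / (m + 1) < q)
    (hp2 : 2 ≤ p) (hp : ((m : ℝ) + 1) * q < p * ((m + 1) * (q - 1) - 2)) :
    ∃ C : ℝ≥0, ∀ (l : Fin (m + 1) → ℝ) (f : (Fin (m + 1) → ℝ) → ℂ) (K : ℝ≥0), Measurable f →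
      (∫⁻ u in Icc (-1 : ℝ) 1, (∫⁻ v in cube m, ‖f (Fin.cons u v)‖ₑ ^ 2) ^ (p / 2)
        ≤ (K : ℝ≥0∞) ^ p) →
      (∀ h : Fin m → ℝ, ‖h‖ ≤ 1 →
        ∫⁻ u in Icc (-1 : ℝ) 1, (∫⁻ v in {v | v ∈ cube m ∧ v + h ∈ cube m},
          ‖f (Fin.cons u (v + h)) - f (Fin.cons u v)‖ₑ ^ 2) ^ (p / 2)
        ≤ (K * ENNReal.ofReal (‖h‖ ^ ((m : ℝ) / (2 * (m + 2))))) ^ p) →
      ∫⁻ y : (Fin (m + 1) → ℝ) × ℝ, ‖ext (fun ξ => f ξ * chirp (Matrix.diagonal l) ξ) y‖ₑ ^ q ≤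
        (C * K : ℝ≥0∞) ^ q := by
  obtain ⟨C, hC⟩ := Pool.Agent.Y247.QT.mainExt hm q p hq hp2 hp
  refine ⟨C, ?_⟩
  intro l f K hf hN hM
  have hp0 : 0 ≤ p := by linarith
  apply of_pos
  intro L hKL hL0
  have hKL' : (K : ℝ≥0∞) ≤ L := by exact_mod_cast hKL
  set F : (Fin (m + 1) → ℝ) → ℂ := fun ξ => f ξ * Pool.Agent.W771.MD.qe 0 (l 0) (ξ 0) with hF
  have hFm : Measurable F := by
    refine hf.mul ?_
    apply Continuous.measurable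
    unfold Pool.Agent.W771.MD.qe
    fun_prop
  have hq1 : ∀ u : ℝ, ‖Pool.Agent.W771.MD.qe 0 (l 0) u‖ₑ = 1 := by
    intro u
    rw [← ofReal_norm, Pool.Agent.W771.MD.qe_norm, ENNReal.ofReal_one]
  have e1 : ∀ u (v : Fin m → ℝ), ‖F (Fin.cons u v)‖ₑ = ‖f (Fin.cons u v)‖ₑ := by
    intro u v
    simp only [hF, Fin.cons_zero, enorm_mul, hq1, mul_one]
  have e2 : ∀ u (v h : Fin m → ℝ), ‖F (Fin.cons u (v + h)) - F (Fin.cons u v)‖ₑ =
      ‖f (Fin.cons u (v + h)) - f (Fin.cons u v)‖ₑ := by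
    intro u v h
    simp only [hF, Fin.cons_zero]
    rw [← sub_mul, enorm_mul, hq1, mul_one]
  have h := hC (fun i => l i.succ) F hFm L (by exact_mod_cast hL0) ENNReal.coe_ne_top
    (by
      simp only [e1]
      exact hN.trans (ENNReal.rpow_le_rpow hKL' hp0))
    (by
      intro h hh
      simp only [e2]
      exact (hM h hh).trans (ENNReal.rpow_le_rpow (mul_le_mul' hKL' le_rfl) hp0))
  have e : (fun ξ => f ξ * chirp (Matrix.diagonal l) ξ) =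
      Pool.Agent.Y247.QT.tw (fun i => l i.succ) F := by
    ext ξ
    unfold Pool.Agent.Y247.QT.tw
    simp only [hF]
    rw [mul_assoc]
    congr 1
    unfold chirp Pool.Agent.W771.MD.qe
    rw [← Complex.exp_sum, ← Complex.exp_add]
    congr 1
    have e3 : ∑ j, ∑ k, Matrix.diagonal l j k * ξ j * ξ k = ∑ j, l j * ξ j ^ 2 := by
      apply Finset.sum_congr rfl
      intro j _
      rw [Finset.sum_eq_single j]
      · rw [Matrix.diagonal_apply_eq]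
        ring
      · intro k _ hk
        rw [Matrix.diagonal_apply_ne _ (Ne.symm hk)]
        ring
      · intro h
        exact absurd (Finset.mem_univ j) h
    rw [e3, Fin.sum_univ_succ]
    have e5 : ∀ s : Fin m → ℝ, ((∑ i, s i : ℝ) : ℂ) = ∑ i, (s i : ℂ) := fun s => by push_cast; rfl
    rw [Complex.ofReal_add, e5, mul_add, Finset.mul_sum]
    congr 1
    · congr 2
      ring
    · apply Finset.sum_congr rfl
      intro i _
      congr 2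
      ring
  rw [e]
  exact h

/-- **The restriction conjecture, uniformly over all quadratic twists.**
Let `m ≥ 1`, `d = m + 2`, `q > 2d/(d-1)`.

1. Let `p ≥ 2` with `(d-1) q < p ((d-1)(q-1) - 2)` (for instance `p = q`). There is `C` such that
   `‖E (g · exp (2πi ⟨ξ, A ξ⟩))‖_q ≤ C K` for every real matrix `A` and every measurable `g` that
   vanishes outside the cube and satisfies `‖g‖_p ≤ K` and `‖g(· + h) - g‖_p ≤ K |h|^((d-2)/(2d))`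
   for all `h ∈ ℝ^(d-1)`.
2. There is `C` such that `‖E (g · exp (2πi ⟨ξ, A ξ⟩))‖_q ≤ C V^((d-2)/(2d))` for every real matrix
   `A`, every `V ≥ 1` and every measurable `g` that vanishes outside the cube, is bounded by `1` and
   satisfies `‖g(· + h) - g‖_1 ≤ V |h|` for all `h` (bounded variation).
3. Let `p` be as in 1. There is `C` such that `‖E (f · exp (2πi ∑ l_j ξ_j²))‖_q ≤ C K` for all
   `l ∈ ℝ^(d-1)` and all measurable `f = f(u,v)`, `u ∈ [-1,1]`, `v ∈ [-1,1]^(d-2)`, with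
   `∫_u (∫_v |f(u,v)|² dv)^(p/2) du ≤ K^p` and
   `∫_u (∫_v |f(u,v+h) - f(u,v)|² dv)^(p/2) du ≤ (K |h|^((d-2)/(2d)))^p` for `|h| ≤ 1`: no regularity
   in `u` is assumed. -/
theorem result (m : ℕ) (hm : 1 ≤ m) (q : ℝ) (hq : 2 * ((m : ℝ) + 2) / (m + 1) < q) :
    (∀ p : ℝ, 2 ≤ p → ((m : ℝ) + 1) * q < p * ((m + 1) * (q - 1) - 2) →
      ∃ C : ℝ≥0, ∀ (A : Matrix (Fin (m + 1)) (Fin (m + 1)) ℝ) (g : (Fin (m + 1) → ℝ) → ℂ)
        (K : ℝ≥0), Measurable g → (∀ ξ, ξ ∉ cube (m + 1) → g ξ = 0) →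
        (∫⁻ ξ, ‖g ξ‖ₑ ^ p ≤ (K : ℝ≥0∞) ^ p) →
        (∀ h : Fin (m + 1) → ℝ, ∫⁻ ξ, ‖g (ξ + h) - g ξ‖ₑ ^ p ≤
          (K * ENNReal.ofReal (‖h‖ ^ ((m : ℝ) / (2 * (m + 2))))) ^ p) →
        ∫⁻ y : (Fin (m + 1) → ℝ) × ℝ, ‖ext (fun ξ => g ξ * chirp A ξ) y‖ₑ ^ q ≤
          (C * K : ℝ≥0∞) ^ q) ∧
    (∃ C : ℝ≥0, ∀ (A : Matrix (Fin (m + 1)) (Fin (m + 1)) ℝ) (g : (Fin (m + 1) → ℝ) → ℂ) (V : ℝ≥0),
      1 ≤ V → Measurable g → (∀ ξ, ξ ∉ cube (m + 1) → g ξ = 0) → (∀ ξ, ‖g ξ‖ ≤ 1) →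
      (∀ h : Fin (m + 1) → ℝ, ∫⁻ ξ, ‖g (ξ + h) - g ξ‖ₑ ≤ V * ENNReal.ofReal ‖h‖) →
      ∫⁻ y : (Fin (m + 1) → ℝ) × ℝ, ‖ext (fun ξ => g ξ * chirp A ξ) y‖ₑ ^ q ≤
        (C * (V : ℝ≥0∞) ^ ((m : ℝ) / (2 * (m + 2)))) ^ q) ∧
    (∀ p : ℝ, 2 ≤ p → ((m : ℝ) + 1) * q < p * ((m + 1) * (q - 1) - 2) →
      ∃ C : ℝ≥0, ∀ (l : Fin (m + 1) → ℝ) (f : (Fin (m + 1) → ℝ) → ℂ) (K : ℝ≥0), Measurable f →
        (∫⁻ u in Icc (-1 : ℝ) 1, (∫⁻ v in cube m, ‖f (Fin.cons u v)‖ₑ ^ 2) ^ (p / 2)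
          ≤ (K : ℝ≥0∞) ^ p) →
        (∀ h : Fin m → ℝ, ‖h‖ ≤ 1 →
          ∫⁻ u in Icc (-1 : ℝ) 1, (∫⁻ v in {v | v ∈ cube m ∧ v + h ∈ cube m},
            ‖f (Fin.cons u (v + h)) - f (Fin.cons u v)‖ₑ ^ 2) ^ (p / 2)
          ≤ (K * ENNReal.ofReal (‖h‖ ^ ((m : ℝ) / (2 * (m + 2))))) ^ p) →
        ∫⁻ y : (Fin (m + 1) → ℝ) × ℝ, ‖ext (fun ξ => f ξ * chirp (Matrix.diagonal l) ξ) y‖ₑ ^ q ≤
          (C * K : ℝ≥0∞) ^ q) :=
  ⟨fun p hp2 hp => all_twists m hm q p hq hp2 hp, bv_twists m hm q hq,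
    fun p hp2 hp => diagonal_twists m hm q p hq hp2 hp⟩

end Pool.Agent.Results.MP_b7167f_an.QuadraticTwists
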